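import Mathlib
import Pool.Agent.W262.RK.Stm

/-! RK-BLW: bilinear sums with weights, by dyadic decomposition. -/

namespace Pool.Agent.W655.RK.Blw

open Finset Pool.Agent.W262.RK

theorem sum_dyadic (V : ℕ) (f : ℕ → ℝ) (k : ℕ) :
    ∑ m ∈ Ioc V (2 ^ k * V), f m =
      ∑ i ∈ range k, ∑ m ∈ Ioc (2 ^ i * V) (2 * (2 ^ i * V)), f m := by
  induction k with
  | zero => simp
  | succ k ih =>
    rw [Finset.sum_range_succ, ← ih]
    have h1 : V ≤ 2 ^ k * V := Nat.le_mul_of_pos_left V (by positivity)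
    have h2 : 2 ^ k * V ≤ 2 * (2 ^ k * V) := by omega
    have h3 : 2 ^ (k + 1) * V = 2 * (2 ^ k * V) := by ring
    rw [h3, Finset.sum_Ioc_consecutive f h1 h2]

theorem sum_ext (V Y Z : ℕ) (hYZ : Y ≤ Z) (f : ℕ → ℝ) :
    ∑ m ∈ Ioc V Y, f m = ∑ m ∈ Ioc V Z, (if m ≤ Y then f m else 0) := by
  rw [← Finset.sum_filter]
  apply Finset.sum_congr _ (fun _ _ => rfl)
  ext m
  simp only [mem_Ioc, mem_filter]
  omega

theorem block (h : BL) : ∃ (C : ℝ) (E : ℕ), 0 ≤ C ∧ ∀ M N : ℕ, 1 ≤ M → 1 ≤ N → ∀ a b : ℕ → ℝ,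
    (∀ m, |a m| ≤ 1 / (m : ℝ)) → (∀ m, |b m| ≤ 1 / (m : ℝ)) →
    (∀ m, a m ≠ 0 → Odd m ∧ Squarefree m) → (∀ m, b m ≠ 0 → Odd m ∧ Squarefree m) →
    |∑ m ∈ Ioc M (2 * M), ∑ n ∈ Ioc N (2 * N), a m * b n * Jr m n| ≤
      C * (Real.log (4 * M * N)) ^ E * ((M : ℝ) ^ (-(1 / 6 : ℝ)) + (N : ℝ) ^ (-(1 / 6 : ℝ))) := by
  obtain ⟨C, E, hC⟩ := h
  refine ⟨max C 0, E, le_max_right _ _, ?_⟩
  intro M N hM hN a b ha hb ha' hb'
  have hM0 : (0 : ℝ) < M := by exact_mod_cast hM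
  have hN0 : (0 : ℝ) < N := by exact_mod_cast hN
  have aux : ∀ (K : ℕ) (c : ℕ → ℝ), 1 ≤ K → (∀ m, |c m| ≤ 1 / (m : ℝ)) →
      ∀ m, |(if K < m then (K : ℝ) * c m else 0)| ≤ 1 := by
    intro K c hK hc m
    by_cases hm : K < m
    · rw [if_pos hm, abs_mul, abs_of_nonneg (Nat.cast_nonneg K)]
      have hm0 : (0 : ℝ) < m := by exact_mod_cast (lt_of_le_of_lt (Nat.zero_le _) hm)
      calc (K : ℝ) * |c m| ≤ K * (1 / m) := by gcongr; exact hc m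
        _ = K / m := by ring
        _ ≤ 1 := by
          rw [div_le_one hm0]
          exact_mod_cast hm.le
    · rw [if_neg hm]; simp
  have aux2 : ∀ (K : ℕ) (c : ℕ → ℝ), (∀ m, c m ≠ 0 → Odd m ∧ Squarefree m) →
      ∀ m, (if K < m then (K : ℝ) * c m else 0) ≠ 0 → Odd m ∧ Squarefree m := by
    intro K c hc m hm
    apply hc
    intro h0
    apply hm
    simp [h0]
  have key := hC M N hM hN (fun m => if M < m then (M : ℝ) * a m else 0)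
    (fun n => if N < n then (N : ℝ) * b n else 0) (aux M a hM ha) (aux N b hN hb)
    (aux2 M a ha') (aux2 N b hb')
  have e : ∑ m ∈ Ioc M (2 * M), ∑ n ∈ Ioc N (2 * N),
      (if M < m then (M : ℝ) * a m else 0) * (if N < n then (N : ℝ) * b n else 0) * Jr m n =
      (M * N : ℝ) * ∑ m ∈ Ioc M (2 * M), ∑ n ∈ Ioc N (2 * N), a m * b n * Jr m n := by
    rw [Finset.mul_sum]
    apply Finset.sum_congr rfl
    intro m hm
    rw [Finset.mul_sum]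
    apply Finset.sum_congr rfl
    intro n hn
    rw [if_pos (mem_Ioc.1 hm).1, if_pos (mem_Ioc.1 hn).1]
    ring
  rw [e, abs_mul, abs_of_pos (by positivity : (0 : ℝ) < M * N)] at key
  have hlog : 0 ≤ Real.log (4 * M * N) := by
    apply Real.log_nonneg
    have : (1 : ℝ) ≤ M := by exact_mod_cast hM
    have : (1 : ℝ) ≤ N := by exact_mod_cast hN
    nlinarith
  have hs : 0 ≤ (M : ℝ) ^ (-(1 / 6 : ℝ)) + (N : ℝ) ^ (-(1 / 6 : ℝ)) := by positivity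
  have k2 : (M * N : ℝ) * |∑ m ∈ Ioc M (2 * M), ∑ n ∈ Ioc N (2 * N), a m * b n * Jr m n| ≤
      (M * N : ℝ) * (max C 0 * (Real.log (4 * M * N)) ^ E *
        ((M : ℝ) ^ (-(1 / 6 : ℝ)) + (N : ℝ) ^ (-(1 / 6 : ℝ)))) := by
    refine key.trans ?_
    have : C * Real.log (4 * M * N) ^ E * (M * N) *
        ((M : ℝ) ^ (-(1 / 6 : ℝ)) + (N : ℝ) ^ (-(1 / 6 : ℝ))) =
        C * (Real.log (4 * M * N) ^ E * (M * N) *
          ((M : ℝ) ^ (-(1 / 6 : ℝ)) + (N : ℝ) ^ (-(1 / 6 : ℝ)))) := by ring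
    rw [this]
    have h3 : (M * N : ℝ) * (max C 0 * (Real.log (4 * M * N)) ^ E *
        ((M : ℝ) ^ (-(1 / 6 : ℝ)) + (N : ℝ) ^ (-(1 / 6 : ℝ)))) =
        max C 0 * (Real.log (4 * M * N) ^ E * (M * N) *
          ((M : ℝ) ^ (-(1 / 6 : ℝ)) + (N : ℝ) ^ (-(1 / 6 : ℝ)))) := by ring
    rw [h3]
    apply mul_le_mul_of_nonneg_right (le_max_left _ _)
    positivity
  exact le_of_mul_le_mul_left k2 (by positivity)

theorem blw_of (h : BL) : BLW := by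
  obtain ⟨C, E, hC0, hC⟩ := block h
  refine ⟨18 * 6 ^ E * C, E + 2, ?_⟩
  intro V Y hV hVY a b ha hb ha' hb'
  set k := Nat.clog 2 Y with hk
  have hY2 : 2 ≤ Y := hV.trans hVY
  have hYk : Y ≤ 2 ^ k := Nat.le_pow_clog (by norm_num) Y
  have hk1 : 1 ≤ k := Nat.clog_pos (by norm_num) hY2
  have hkY : 2 ^ (k - 1) < Y := Nat.pow_pred_clog_lt_self (by norm_num) hY2
  have hZ : Y ≤ 2 ^ k * V := hYk.trans (Nat.le_mul_of_pos_right _ (by omega))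
  have hV0 : (0 : ℝ) < V := by exact_mod_cast (by omega : 0 < V)
  have hYR : (2 : ℝ) ≤ Y := by exact_mod_cast hY2
  have hY0 : (0 : ℝ) < Y := by linarith
  have hlogY : Real.log 2 ≤ Real.log Y := Real.log_le_log (by norm_num) hYR
  have hlog2 : 0.6931471803 < Real.log 2 := Real.log_two_gt_d9
  have hlogY0 : 0 < Real.log Y := by linarith
  -- the number of blocks
  have hkl : (k : ℝ) ≤ 3 * Real.log Y := by
    have h1 : ((2 : ℝ)) ^ (k - 1) ≤ Y := by exact_mod_cast hkY.le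
    have h2 : ((k - 1 : ℕ) : ℝ) * Real.log 2 ≤ Real.log Y := by
      rw [← Real.log_pow]
      exact Real.log_le_log (by positivity) h1
    have h3 : ((k - 1 : ℕ) : ℝ) = (k : ℝ) - 1 := by
      rw [Nat.cast_sub hk1]; simp
    rw [h3] at h2
    have h4 : (k : ℝ) * Real.log 2 ≤ 2 * Real.log Y := by linarith
    nlinarith [Nat.cast_nonneg (α := ℝ) k]
  -- the extension
  set a' : ℕ → ℝ := fun m => if m ≤ Y then a m else 0 with ha'd
  set b' : ℕ → ℝ := fun m => if m ≤ Y then b m else 0 with hb'd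
  have hext : ∑ m ∈ Ioc V Y, ∑ n ∈ Ioc V Y, a m * b n * Jr m n =
      ∑ i ∈ range k, ∑ j ∈ range k, ∑ m ∈ Ioc (2 ^ i * V) (2 * (2 ^ i * V)),
        ∑ n ∈ Ioc (2 ^ j * V) (2 * (2 ^ j * V)), a' m * b' n * Jr m n := by
    rw [sum_ext V Y _ hZ, sum_dyadic]
    apply Finset.sum_congr rfl
    intro i _
    rw [Finset.sum_comm (s := range k)]
    apply Finset.sum_congr rfl
    intro m _
    rw [← sum_dyadic V (fun n => a' m * b' n * Jr m n) k]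
    by_cases hm : m ≤ Y
    · rw [if_pos hm, sum_ext V Y _ hZ]
      apply Finset.sum_congr rfl
      intro n _
      simp only [ha'd, hb'd, if_pos hm]
      by_cases hn : n ≤ Y
      · simp only [if_pos hn]
      · simp only [if_neg hn, mul_zero, zero_mul]
    · rw [if_neg hm]
      symm
      apply Finset.sum_eq_zero
      intro n _
      simp only [ha'd, if_neg hm, zero_mul]
  rw [hext]
  have hA : ∀ (c : ℕ → ℝ), (∀ m, |c m| ≤ 1 / (m : ℝ)) →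
      ∀ m, |(if m ≤ Y then c m else 0)| ≤ 1 / (m : ℝ) := by
    intro c hc m
    by_cases hm : m ≤ Y
    · rw [if_pos hm]; exact hc m
    · rw [if_neg hm, abs_zero]; positivity
  have hB : ∀ (c : ℕ → ℝ), (∀ m, c m ≠ 0 → Odd m ∧ Squarefree m) →
      ∀ m, (if m ≤ Y then c m else 0) ≠ 0 → Odd m ∧ Squarefree m := by
    intro c hc m hm
    apply hc
    intro h0
    apply hm
    simp [h0]
  have hVpos : 0 < V := by omega
  have hblk : ∀ i ∈ range k, ∀ j ∈ range k,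
      |∑ m ∈ Ioc (2 ^ i * V) (2 * (2 ^ i * V)),
        ∑ n ∈ Ioc (2 ^ j * V) (2 * (2 ^ j * V)), a' m * b' n * Jr m n| ≤
      2 * 6 ^ E * C * (Real.log Y) ^ E * (V : ℝ) ^ (-(1 / 6 : ℝ)) := by
    intro i hi j hj
    have hb1 := hC (2 ^ i * V) (2 ^ j * V) (Nat.mul_pos (by positivity) hVpos)
      (Nat.mul_pos (by positivity) hVpos) a' b' (hA a ha) (hA b hb) (hB a ha') (hB b hb')
    refine hb1.trans ?_
    have hpow : ∀ i ∈ range k, ((2 ^ i * V : ℕ) : ℝ) ≤ (Y : ℝ) ^ 2 ∧ (V : ℝ) ≤ ((2 ^ i * V : ℕ) : ℝ) := by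
      intro i hi
      have hi' : i ≤ k - 1 := by have := mem_range.1 hi; omega
      have h1 : 2 ^ i ≤ Y := (Nat.pow_le_pow_right (by norm_num) hi').trans hkY.le
      constructor
      · have : 2 ^ i * V ≤ Y ^ 2 := by
          rw [sq]; exact Nat.mul_le_mul h1 hVY
        exact_mod_cast this
      · have : V ≤ 2 ^ i * V := Nat.le_mul_of_pos_left V (by positivity)
        exact_mod_cast this
    obtain ⟨hi1, hi2⟩ := hpow i hi
    obtain ⟨hj1, hj2⟩ := hpow j hj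
    have hrp : ∀ x : ℝ, (V : ℝ) ≤ x → x ^ (-(1 / 6 : ℝ)) ≤ (V : ℝ) ^ (-(1 / 6 : ℝ)) := by
      intro x hx
      exact Real.rpow_le_rpow_of_nonpos hV0 hx (by norm_num)
    have hlg : Real.log (4 * ((2 ^ i * V : ℕ) : ℝ) * ((2 ^ j * V : ℕ) : ℝ)) ≤ 6 * Real.log Y := by
      have : (6 : ℝ) * Real.log Y = Real.log ((Y : ℝ) ^ 6) := by
        rw [Real.log_pow]; norm_num
      rw [this]
      apply Real.log_le_log
      · have h1 : (0 : ℝ) < ((2 ^ i * V : ℕ) : ℝ) := lt_of_lt_of_le hV0 hi2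
        have h2 : (0 : ℝ) < ((2 ^ j * V : ℕ) : ℝ) := lt_of_lt_of_le hV0 hj2
        positivity
      · have h4 : (4 : ℝ) ≤ (Y : ℝ) ^ 2 := by nlinarith
        calc 4 * ((2 ^ i * V : ℕ) : ℝ) * ((2 ^ j * V : ℕ) : ℝ)
            ≤ (Y : ℝ) ^ 2 * (Y : ℝ) ^ 2 * (Y : ℝ) ^ 2 := by gcongr
          _ = (Y : ℝ) ^ 6 := by ring
    have hlg0 : 0 ≤ Real.log (4 * ((2 ^ i * V : ℕ) : ℝ) * ((2 ^ j * V : ℕ) : ℝ)) := by
      apply Real.log_nonneg
      have h0 : (2 : ℝ) ≤ V := by exact_mod_cast hV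
      have h1 : (1 : ℝ) ≤ ((2 ^ i * V : ℕ) : ℝ) := by linarith
      have h2 : (1 : ℝ) ≤ ((2 ^ j * V : ℕ) : ℝ) := by linarith
      nlinarith
    calc C * (Real.log (4 * ((2 ^ i * V : ℕ) : ℝ) * ((2 ^ j * V : ℕ) : ℝ))) ^ E *
          (((2 ^ i * V : ℕ) : ℝ) ^ (-(1 / 6 : ℝ)) + ((2 ^ j * V : ℕ) : ℝ) ^ (-(1 / 6 : ℝ)))
        ≤ C * (6 * Real.log Y) ^ E * ((V : ℝ) ^ (-(1 / 6 : ℝ)) + (V : ℝ) ^ (-(1 / 6 : ℝ))) := by
          gcongr C * ?_ ^ E * (?_ + ?_)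
          · exact hrp _ hi2
          · exact hrp _ hj2
      _ = 2 * 6 ^ E * C * (Real.log Y) ^ E * (V : ℝ) ^ (-(1 / 6 : ℝ)) := by
          rw [mul_pow]; ring
  set B := 2 * 6 ^ E * C * (Real.log Y) ^ E * (V : ℝ) ^ (-(1 / 6 : ℝ)) with hBdef
  have hB0 : 0 ≤ B := by positivity
  calc |∑ i ∈ range k, ∑ j ∈ range k, ∑ m ∈ Ioc (2 ^ i * V) (2 * (2 ^ i * V)),
        ∑ n ∈ Ioc (2 ^ j * V) (2 * (2 ^ j * V)), a' m * b' n * Jr m n|
      ≤ ∑ i ∈ range k, |∑ j ∈ range k, ∑ m ∈ Ioc (2 ^ i * V) (2 * (2 ^ i * V)),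
        ∑ n ∈ Ioc (2 ^ j * V) (2 * (2 ^ j * V)), a' m * b' n * Jr m n| :=
        Finset.abs_sum_le_sum_abs _ _
    _ ≤ ∑ i ∈ range k, ∑ j ∈ range k, |∑ m ∈ Ioc (2 ^ i * V) (2 * (2 ^ i * V)),
        ∑ n ∈ Ioc (2 ^ j * V) (2 * (2 ^ j * V)), a' m * b' n * Jr m n| :=
        Finset.sum_le_sum (fun i _ => Finset.abs_sum_le_sum_abs _ _)
    _ ≤ ∑ _i ∈ range k, ∑ _j ∈ range k, B :=
        Finset.sum_le_sum (fun i hi => Finset.sum_le_sum (fun j hj => hblk i hi j hj))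
    _ = (k : ℝ) * (k * B) := by simp
    _ ≤ (3 * Real.log Y) * ((3 * Real.log Y) * B) := by gcongr
    _ = 18 * 6 ^ E * C * Real.log Y ^ (E + 2) * (V : ℝ) ^ (-(1 / 6 : ℝ)) := by
        rw [hBdef]; ring

end Pool.Agent.W655.RK.Blw

namespace Pool.Agent.W655.RK

theorem blw_of (h : Pool.Agent.W262.RK.BL) : Pool.Agent.W262.RK.BLW := Blw.blw_of h

end Pool.Agent.W655.RK
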