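import Pool.Agent.W655.RK.Full

set_option autoImplicit false

/-! A twisted Euler product. -/

namespace Pool.Agent.W655.RK

open Finset Pool.Agent.W262.RK

/-- the character -/
def chr (κ : ℤ) (r : ℕ) (e : Bool) (d : ℕ) : ℝ := Jr d r * Jr κ d * x4 e d

lemma x4_mul (e : Bool) (m n : ℕ) : x4 e (m * n) = x4 e m * x4 e n := by
  unfold x4
  cases e
  · simp
  · simp only [if_true, Nat.cast_mul, map_mul, Int.cast_mul]

lemma Jr_mul_left (m n r : ℕ) : Jr ((m * n : ℕ) : ℤ) r = Jr m r * Jr n r := by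
  unfold Jr
  rw [Nat.cast_mul, jacobiSym.mul_left, Int.cast_mul]

lemma Jr_mul_right (κ : ℤ) (m n : ℕ) (hm : m ≠ 0) (hn : n ≠ 0) :
    Jr κ (m * n) = Jr κ m * Jr κ n := by
  unfold Jr
  rw [jacobiSym.mul_right' κ hm hn, Int.cast_mul]

lemma chr_prod (κ : ℤ) (r : ℕ) (e : Bool) (T : Finset ℕ) (hT : ∀ p ∈ T, p.Prime) :
    chr κ r e (∏ p ∈ T, p) = ∏ p ∈ T, chr κ r e p := by
  classical
  induction T using Finset.induction_on with
  | empty => simp [chr, Jr, x4]
  | insert a s ha ih =>
    rw [Finset.prod_insert ha, Finset.prod_insert ha, ← ih fun p hp => hT p (mem_insert_of_mem hp)]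
    have h1 : a ≠ 0 := (hT a (mem_insert_self a s)).ne_zero
    have h2 : ∏ p ∈ s, p ≠ 0 :=
      Finset.prod_ne_zero_iff.2 fun p hp => (hT p (mem_insert_of_mem hp)).ne_zero
    unfold chr
    rw [Jr_mul_left, Jr_mul_right κ _ _ h1 h2, x4_mul]
    ring

lemma Jr_abs (a : ℤ) (n : ℕ) : |Jr a n| ≤ 1 := by
  unfold Jr
  rcases jacobiSym.trichotomy a n with h | h | h <;> rw [h] <;> norm_num

lemma x4_abs (e : Bool) (n : ℕ) : |x4 e n| ≤ 1 := by
  unfold x4
  cases e
  · simp
  · simp only [if_true]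
    rcases ZMod.isQuadratic_χ₄ (n : ZMod 4) with h | h | h <;> rw [h] <;> norm_num

lemma chr_abs (κ : ℤ) (r : ℕ) (e : Bool) (d : ℕ) : |chr κ r e d| ≤ 1 := by
  unfold chr
  rw [abs_mul, abs_mul]
  have h1 := Jr_abs d r
  have h2 := Jr_abs κ d
  have h3 := x4_abs e d
  have h4 : |Jr (d : ℤ) r| * |Jr κ d| ≤ 1 := mul_le_one₀ h1 (abs_nonneg _) h2
  exact mul_le_one₀ h4 (abs_nonneg _) h3

lemma exp_small (x : ℝ) (h0 : 0 ≤ x) (h1 : x ≤ 1 / 2) : Real.exp x ≤ 1 + 2 * x := by
  have h2 := Real.exp_bound_div_one_sub_of_interval h0 (by linarith)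
  refine h2.trans ?_
  rw [div_le_iff₀ (by linarith)]
  nlinarith

theorem ep_of (h : UB) : EP := by
  intro w c κ hw hw2 hκ
  obtain ⟨K, hK, hsq⟩ := sum_inv_sq
  refine ⟨max (2 * c + 2) κ.natAbs, fun z hz => ?_⟩
  have hzc : 2 * c + 2 ≤ z := (le_max_left _ _).trans hz
  have hzκ : κ.natAbs ≤ z := (le_max_right _ _).trans hz
  have hz2 : 2 ≤ z := by omega
  obtain ⟨C, hC⟩ := h κ z hκ hz2 hzκ
  refine ⟨Real.exp (w * C + c * K), fun y R r e hy hR hr hrs hrp => ?_⟩
  classical
  have hr3 : 3 ≤ r := by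
    obtain ⟨p, hp, hpr⟩ := Nat.exists_prime_and_dvd (by omega : r ≠ 1)
    have h1 := hrp p hp hpr
    have h2 := Nat.le_of_dvd (by omega) hpr
    omega
  have hlr : 0 < Real.log r := Real.log_pos (by exact_mod_cast (by omega : 1 < r))
  set S' := (PS z y).filter (fun p => ¬ p ∣ R) with hS'
  have hS'p : ∀ p ∈ S', p.Prime := fun p hp => PS_prime (mem_filter.1 hp).1
  have hset : (PP z y).divisors.filter (fun d => d.Coprime R) = (∏ p ∈ S', p).divisors := by
    have hsq1 := prod_primes_squarefree (PS z y) fun p hp => PS_prime hp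
    have hsq2 := prod_primes_squarefree S' hS'p
    ext d
    rw [mem_filter, Nat.mem_divisors, Nat.mem_divisors]
    constructor
    · rintro ⟨⟨hd, -⟩, hc⟩
      refine ⟨?_, hsq2.ne_zero⟩
      have hsd : Squarefree d := hsq1.squarefree_of_dvd hd
      rw [← Nat.prod_primeFactors_of_squarefree hsd]
      refine Finset.prod_dvd_prod_of_subset _ _ _ fun p hp => ?_
      have hpp := Nat.prime_of_mem_primeFactors hp
      have hpd := Nat.dvd_of_mem_primeFactors hp
      have h1 : p ∈ PS z y := by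
        rw [← Nat.primeFactors_prod (s := PS z y) fun p hp => PS_prime hp]
        exact Nat.primeFactors_mono hd hsq1.ne_zero hp
      refine mem_filter.2 ⟨h1, fun hpR => ?_⟩
      have := Nat.dvd_gcd hpd hpR
      rw [hc.gcd_eq_one] at this
      exact hpp.one_lt.ne' (Nat.dvd_one.1 this)
    · rintro ⟨hd, -⟩
      refine ⟨⟨hd.trans (Finset.prod_dvd_prod_of_subset _ _ _ (filter_subset _ _)),
        hsq1.ne_zero⟩, ?_⟩
      refine Nat.Coprime.coprime_dvd_left hd ?_
      exact Nat.Coprime.prod_left fun p hp =>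
        ((hS'p p hp).coprime_iff_not_dvd).2 (mem_filter.1 hp).2
  set φ : ℕ → ℝ := fun p => w / ((p : ℝ) - c) * chr κ r e p with hφ
  have hsum : ∑ d ∈ (PP z y).divisors.filter (fun d => d.Coprime R),
      gw w c d * (Jr d r * Jr κ d * x4 e d) = ∏ p ∈ S', (1 + φ p) := by
    rw [hset, ← sum_mult S' hS'p φ]
    refine Finset.sum_congr rfl fun d hd => ?_
    have hsd : Squarefree d :=
      (prod_primes_squarefree S' hS'p).squarefree_of_dvd (Nat.dvd_of_mem_divisors hd)
    show gw w c d * chr κ r e d = _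
    have h1 : chr κ r e d = ∏ p ∈ d.primeFactors, chr κ r e p := by
      rw [← chr_prod κ r e _ fun p hp => Nat.prime_of_mem_primeFactors hp,
        Nat.prod_primeFactors_of_squarefree hsd]
    rw [h1, gw, ← Finset.prod_mul_distrib]
  rw [hsum]
  have hp3 : ∀ p ∈ PS z y, (2 * c + 3 : ℝ) ≤ p := fun p hp => by
    have := PS_lt hp
    exact_mod_cast (by omega : 2 * c + 3 ≤ p)
  have hc0 : (0:ℝ) ≤ c := Nat.cast_nonneg c
  have hfac : ∀ p ∈ S', 0 ≤ 1 + φ p := by
    intro p hp
    have h1 := hp3 p (mem_filter.1 hp).1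
    have h2 : 0 < (p : ℝ) - c := by linarith
    have h3 : w / ((p : ℝ) - c) ≤ 1 := by
      rw [div_le_one h2]
      linarith
    have h4 := (abs_le.1 (chr_abs κ r e p)).1
    have h5 : 0 ≤ w / ((p : ℝ) - c) := by positivity
    simp only [hφ]
    nlinarith
  rw [abs_of_nonneg (Finset.prod_nonneg hfac)]
  refine (prod_le_exp S' φ hfac).trans ?_
  -- the exponent
  have hterm : ∀ p ∈ S', φ p ≤ w * (chr κ r e p / p) + c * (1 / (p : ℝ) ^ 2) := by
    intro p hp
    have h1 := hp3 p (mem_filter.1 hp).1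
    have h2 : 0 < (p : ℝ) - c := by linarith
    have hp0 : (0:ℝ) < p := by linarith
    have h4 := (abs_le.1 (chr_abs κ r e p)).2
    simp only [hφ]
    have h5 : w / ((p : ℝ) - c) * chr κ r e p =
        w * (chr κ r e p / p) + (w * c / (p * (p - c))) * chr κ r e p := by
      field_simp
      ring
    rw [h5]
    have h6 : 0 ≤ w * c / (p * (p - c)) := by positivity
    have h7 : w * c / (p * (p - c)) ≤ c * (1 / (p : ℝ) ^ 2) := by
      rw [mul_one_div, div_le_div_iff₀ (by positivity) (by positivity)]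
      have h8 : w * p ≤ p - c := by nlinarith
      have h9 : 0 ≤ (c : ℝ) * p := by positivity
      nlinarith
    nlinarith
  have hexp : ∑ p ∈ S', φ p ≤ w * (Real.log (Real.log r) + C) + c * K +
      ∑ p ∈ (PS z y).filter (fun p => p ∣ R), w / p := by
    have hub := hC y r e hy hr hrs hrp
    have hub' : ∑ p ∈ PS z y, chr κ r e p / (p : ℝ) ≤ Real.log (Real.log r) + C := hub
    have hsplit := Finset.sum_filter_add_sum_filter_not (PS z y) (fun p => p ∣ R)
      (fun p => chr κ r e p / (p : ℝ))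
    have h1 : ∑ p ∈ S', chr κ r e p / (p : ℝ) ≤ (Real.log (Real.log r) + C) +
        ∑ p ∈ (PS z y).filter (fun p => p ∣ R), 1 / (p : ℝ) := by
      have h2 : -∑ p ∈ (PS z y).filter (fun p => p ∣ R), 1 / (p : ℝ) ≤
          ∑ p ∈ (PS z y).filter (fun p => p ∣ R), chr κ r e p / (p : ℝ) := by
        rw [← Finset.sum_neg_distrib]
        refine Finset.sum_le_sum fun p _ => ?_
        rw [← neg_div]
        exact div_le_div_of_nonneg_right (abs_le.1 (chr_abs κ r e p)).1 (Nat.cast_nonneg p)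
      linarith
    calc ∑ p ∈ S', φ p ≤ ∑ p ∈ S', (w * (chr κ r e p / p) + c * (1 / (p : ℝ) ^ 2)) :=
          Finset.sum_le_sum hterm
      _ = w * ∑ p ∈ S', chr κ r e p / p + c * ∑ p ∈ S', 1 / (p : ℝ) ^ 2 := by
          rw [Finset.sum_add_distrib, Finset.mul_sum, Finset.mul_sum]
      _ ≤ w * ((Real.log (Real.log r) + C) +
            ∑ p ∈ (PS z y).filter (fun p => p ∣ R), 1 / (p : ℝ)) + c * K :=
          add_le_add (mul_le_mul_of_nonneg_left h1 hw.le) (mul_le_mul_of_nonneg_left (hsq _) hc0)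
      _ = _ := by
          rw [mul_add, Finset.mul_sum]
          simp only [mul_one_div]
          ring
  have hhh : Real.exp (∑ p ∈ (PS z y).filter (fun p => p ∣ R), w / p) ≤ hh R := by
    rw [Real.exp_sum]
    unfold hh
    have hsub : (PS z y).filter (fun p => p ∣ R) ⊆ R.primeFactors := by
      intro p hp
      rw [mem_filter] at hp
      exact Nat.mem_primeFactors.2 ⟨PS_prime hp.1, hp.2, hR⟩
    calc ∏ p ∈ (PS z y).filter (fun p => p ∣ R), Real.exp (w / p)
        ≤ ∏ p ∈ (PS z y).filter (fun p => p ∣ R), (1 + 2 / (p : ℝ)) := by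
          refine Finset.prod_le_prod (fun p _ => (Real.exp_pos _).le) fun p hp => ?_
          have h1 := hp3 p (mem_filter.1 hp).1
          have hp0 : (0:ℝ) < p := by linarith
          have h2 : w / (p : ℝ) ≤ 1 / 2 := by
            rw [div_le_iff₀ hp0]
            linarith
          refine (exp_small _ (by positivity) h2).trans ?_
          have h3 : w / (p : ℝ) ≤ 1 / p := div_le_div_of_nonneg_right (by linarith) hp0.le
          have h4 : 2 / (p : ℝ) = 2 * (1 / p) := by ring
          rw [h4]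
          linarith
      _ ≤ ∏ p ∈ R.primeFactors, (1 + 2 / (p : ℝ)) := by
          refine Finset.prod_le_prod_of_subset_of_one_le hsub (fun p _ => by positivity)
            fun p _ _ => ?_
          have : (0:ℝ) ≤ 2 / (p : ℝ) := by positivity
          linarith
  calc Real.exp (∑ p ∈ S', φ p) ≤ Real.exp (w * (Real.log (Real.log r) + C) + c * K +
        ∑ p ∈ (PS z y).filter (fun p => p ∣ R), w / p) := Real.exp_le_exp.2 hexp
    _ = Real.exp (w * C + c * K) * (Real.log r) ^ w *
        Real.exp (∑ p ∈ (PS z y).filter (fun p => p ∣ R), w / p) := by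
        rw [Real.rpow_def_of_pos hlr, ← Real.exp_add, ← Real.exp_add]
        congr 1
        ring
    _ ≤ _ := mul_le_mul_of_nonneg_left hhh (by positivity)

end Pool.Agent.W655.RK
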