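import Pool.Agent.W262.RK.Stm
import Pool.Agent.Helper256.KM.Mertens

set_option autoImplicit false

/-! Mertens type sums over the divisors of a product of primes. -/

namespace Pool.Agent.W655.RK

open Finset Pool.Agent.W262.RK

lemma PS_prime {z y p : ℕ} (h : p ∈ PS z y) : p.Prime := (mem_filter.1 h).2

lemma PS_lt {z y p : ℕ} (h : p ∈ PS z y) : z < p := (mem_Ioc.1 (mem_filter.1 h).1).1

lemma PS_le {z y p : ℕ} (h : p ∈ PS z y) : p ≤ y := (mem_Ioc.1 (mem_filter.1 h).1).2

lemma prod_primes_squarefree (S : Finset ℕ) (hS : ∀ p ∈ S, p.Prime) :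
    Squarefree (∏ p ∈ S, p) := by
  refine Finset.squarefree_prod_of_pairwise_isCoprime (fun p hp q hq hpq => ?_)
    fun p hp => (hS p hp).prime.squarefree
  simp only [Function.onFun, ← Nat.coprime_iff_isRelPrime]
  exact (Nat.coprime_primes (hS p hp) (hS q hq)).2 hpq

/-- sum over the divisors of a product of primes -/
lemma sum_divisors (S : Finset ℕ) (hS : ∀ p ∈ S, p.Prime) (F : Finset ℕ → ℝ) :
    ∑ d ∈ (∏ p ∈ S, p).divisors, F d.primeFactors = ∑ T ∈ S.powerset, F T := by
  have hsq := prod_primes_squarefree S hS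
  refine Finset.sum_bij' (fun d _ => d.primeFactors) (fun T _ => ∏ p ∈ T, p) ?_ ?_ ?_ ?_ ?_
  · intro d hd
    rw [mem_powerset, ← Nat.primeFactors_prod hS]
    exact Nat.primeFactors_mono (Nat.dvd_of_mem_divisors hd) hsq.ne_zero
  · intro T hT
    rw [Nat.mem_divisors]
    exact ⟨Finset.prod_dvd_prod_of_subset _ _ _ (mem_powerset.1 hT), hsq.ne_zero⟩
  · intro d hd
    exact Nat.prod_primeFactors_of_squarefree
      (hsq.squarefree_of_dvd (Nat.dvd_of_mem_divisors hd))
  · intro T hT
    exact Nat.primeFactors_prod fun p hp => hS p (mem_powerset.1 hT hp)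
  · intro d hd
    rfl

lemma sum_mult (S : Finset ℕ) (hS : ∀ p ∈ S, p.Prime) (φ : ℕ → ℝ) :
    ∑ d ∈ (∏ p ∈ S, p).divisors, ∏ p ∈ d.primeFactors, φ p = ∏ p ∈ S, (1 + φ p) := by
  rw [sum_divisors S hS (fun T => ∏ p ∈ T, φ p), Finset.prod_one_add]

lemma prod_le_exp (S : Finset ℕ) (φ : ℕ → ℝ) (h : ∀ p ∈ S, 0 ≤ 1 + φ p) :
    ∏ p ∈ S, (1 + φ p) ≤ Real.exp (∑ p ∈ S, φ p) := by
  rw [Real.exp_sum]
  refine Finset.prod_le_prod h fun p _ => ?_
  rw [add_comm]
  exact Real.add_one_le_exp _

/-- Mertens' upper bound -/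
lemma mertens : ∃ C : ℝ, 0 ≤ C ∧ ∀ z y : ℕ, 2 ≤ y →
    ∑ p ∈ PS z y, (1 : ℝ) / p ≤ Real.log (Real.log y) + C := by
  obtain ⟨C, hC⟩ := Pool.Agent.Helper256.KM.mertens_inv
  refine ⟨|C| + 2, by positivity, fun z y hy => ?_⟩
  have h0 : ∑ p ∈ PS z y, (1 : ℝ) / p ≤ ∑ p ∈ (Finset.Icc 1 y).filter Nat.Prime, (1 : ℝ) / p := by
    refine Finset.sum_le_sum_of_subset_of_nonneg ?_ fun p _ _ => by positivity
    intro p hp
    exact mem_filter.2 ⟨mem_Icc.2 ⟨(PS_prime hp).one_lt.le, PS_le hp⟩, PS_prime hp⟩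
  rcases Nat.lt_or_ge y 3 with h3 | h3
  · have hy2 : y = 2 := by omega
    subst hy2
    have h1 : ∑ p ∈ (Finset.Icc 1 2).filter Nat.Prime, (1 : ℝ) / p = 1 / 2 := by
      have : (Finset.Icc 1 2).filter Nat.Prime = {2} := by decide
      rw [this]
      simp
    have h2 : -1 ≤ Real.log (Real.log 2) := by
      rw [Real.le_log_iff_exp_le (Real.log_pos (by norm_num))]
      have := Real.log_two_gt_d9
      have h4 : Real.exp (-1) ≤ 0.5 := by
        rw [Real.exp_neg]
        have := Real.exp_one_gt_d9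
        rw [inv_le_comm₀ (Real.exp_pos 1) (by norm_num)]
        norm_num
        linarith
      linarith
    have := abs_nonneg C
    push_cast
    linarith
  · have := (abs_le.1 (hC y h3)).2
    have := le_abs_self C
    linarith

lemma sum_inv_sq : ∃ K : ℝ, 0 ≤ K ∧ ∀ S : Finset ℕ, ∑ p ∈ S, 1 / (p : ℝ) ^ 2 ≤ K := by
  have hs : Summable (fun n : ℕ => 1 / (n : ℝ) ^ 2) := Real.summable_one_div_nat_pow.2 (by norm_num)
  exact ⟨∑' n : ℕ, 1 / (n : ℝ) ^ 2, tsum_nonneg fun n => by positivity,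
    fun S => hs.sum_le_tsum S fun n _ => by positivity⟩

/-- the local weight -/
lemma weight_le (w : ℝ) (c z p : ℕ) (hw : 0 < w) (hw2 : w ≤ 1 / 2) (hz : 2 * c + 2 ≤ z)
    (hp : z < p) : 0 ≤ w / ((p : ℝ) - c) * (1 + 2 / (p : ℝ)) ∧
    w / ((p : ℝ) - c) * (1 + 2 / (p : ℝ)) ≤ w * (1 / p) + (6 * c + 2) * (1 / (p : ℝ) ^ 2) := by
  have hp1 : (2 * c + 3 : ℝ) ≤ p := by exact_mod_cast (by omega : 2 * c + 3 ≤ p)
  have hc : (0:ℝ) ≤ c := Nat.cast_nonneg c
  have hp0 : (0:ℝ) < p := by linarith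
  have hpc : (0:ℝ) < (p : ℝ) - c := by linarith
  have h2 : (1:ℝ) + 2 / p = (p + 2) / p := by field_simp
  constructor
  · positivity
  · have h3 : w * (1 / p) + (6 * c + 2) * (1 / (p : ℝ) ^ 2) = (w * p + (6 * c + 2)) / p ^ 2 := by
      field_simp
    rw [h3, h2, div_mul_div_comm, div_le_div_iff₀ (by positivity) (by positivity)]
    have h4 : w * ((p : ℝ) + 2) * p ≤ (w * p + (6 * c + 2)) * ((p : ℝ) - c) := by
      have h5 : (w * p + (6 * c + 2)) * ((p : ℝ) - c) - w * ((p : ℝ) + 2) * p =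
          (6 * c + 2 - w * c - 2 * w) * p - (6 * c + 2) * c := by ring
      have h6 : (5 * c + 1 : ℝ) ≤ 6 * c + 2 - w * c - 2 * w := by nlinarith
      have h7 : (5 * c + 1 : ℝ) * (2 * c + 3) ≤ (6 * c + 2 - w * c - 2 * w) * p := by
        apply mul_le_mul h6 hp1 (by positivity) (by nlinarith)
      nlinarith
    calc w * ((p : ℝ) + 2) * p ^ 2 = (w * ((p : ℝ) + 2) * p) * p := by ring
      _ ≤ ((w * p + (6 * c + 2)) * ((p : ℝ) - c)) * p := mul_le_mul_of_nonneg_right h4 hp0.le
      _ = (w * p + (6 * c + 2)) * (((p : ℝ) - c) * p) := by ring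

lemma gw_hh (w : ℝ) (c d : ℕ) : gw w c d * hh d =
    ∏ p ∈ d.primeFactors, (w / ((p : ℝ) - c) * (1 + 2 / (p : ℝ))) := by
  unfold gw hh
  rw [Finset.prod_mul_distrib]

theorem full : FULL := by
  intro w c hw hw2
  obtain ⟨C0, hC0, hmer⟩ := mertens
  obtain ⟨K, hK, hsq⟩ := sum_inv_sq
  refine ⟨2 * c + 2, fun z hz => ?_⟩
  have hz2 : 2 ≤ z := by omega
  set φ : ℕ → ℝ := fun p => w / ((p : ℝ) - c) * (1 + 2 / (p : ℝ)) with hφ
  set B : ℝ := w * C0 + (6 * c + 2) * K with hB
  have hB0 : 0 ≤ B := by positivity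
  have hφ0 : ∀ y, ∀ p ∈ PS z y, 0 ≤ φ p := fun y p hp => (weight_le w c z p hw hw2 hz (PS_lt hp)).1
  have hsum : ∀ y : ℕ, 2 ≤ y → ∑ p ∈ PS z y, φ p ≤ w * Real.log (Real.log y) + B := by
    intro y hy
    calc ∑ p ∈ PS z y, φ p ≤ ∑ p ∈ PS z y, (w * (1 / (p : ℝ)) + (6 * c + 2) * (1 / (p : ℝ) ^ 2)) :=
          Finset.sum_le_sum fun p hp => (weight_le w c z p hw hw2 hz (PS_lt hp)).2
      _ = w * ∑ p ∈ PS z y, 1 / (p : ℝ) + (6 * c + 2) * ∑ p ∈ PS z y, 1 / (p : ℝ) ^ 2 := by
          rw [Finset.sum_add_distrib, Finset.mul_sum, Finset.mul_sum]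
      _ ≤ w * (Real.log (Real.log y) + C0) + (6 * c + 2) * K := by
          refine add_le_add (mul_le_mul_of_nonneg_left (hmer z y hy) hw.le)
            (mul_le_mul_of_nonneg_left (hsq _) (by positivity))
      _ = _ := by rw [hB]; ring
  have hlog : ∀ y : ℕ, 2 ≤ y → 0 < Real.log y := fun y hy =>
    Real.log_pos (by exact_mod_cast (by omega : 1 < y))
  have main : ∀ y : ℕ, 2 ≤ y → ∑ d ∈ (PP z y).divisors, gw w c d * hh d ≤
      Real.exp B * (Real.log y) ^ w := by
    intro y hy
    simp only [gw_hh]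
    unfold PP
    rw [sum_mult (PS z y) (fun p hp => PS_prime hp) φ]
    refine (prod_le_exp _ _ fun p hp => by have := hφ0 y p hp; linarith).trans ?_
    rw [Real.rpow_def_of_pos (hlog y hy), ← Real.exp_add, Real.exp_le_exp]
    have := hsum y hy
    linarith
  have hnn : ∀ d : ℕ, (∀ p ∈ d.primeFactors, z < p) → 0 ≤ gw w c d * hh d := by
    intro d hd
    rw [gw_hh]
    exact Finset.prod_nonneg fun p hp => (weight_le w c z p hw hw2 hz (hd p hp)).1
  have hpf : ∀ y d, d ∈ (PP z y).divisors → d.primeFactors ⊆ PS z y := by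
    intro y d hd
    have h1 : (PP z y).primeFactors = PS z y := Nat.primeFactors_prod fun p hp => PS_prime hp
    rw [← h1]
    exact Nat.primeFactors_mono (Nat.dvd_of_mem_divisors hd) (Nat.mem_divisors.1 hd).2
  refine ⟨Real.exp (3 * (B + 1)), ?_, ?_, ?_⟩
  · intro y hy
    refine (main y (by omega)).trans ?_
    refine mul_le_mul_of_nonneg_right ?_ (Real.rpow_nonneg (hlog y (by omega)).le _)
    rw [Real.exp_le_exp]
    linarith
  · intro y V hy hV
    have hsub : (PP z y).divisors.filter (fun d => d ≤ V) ⊆ (PP z (min y V)).divisors := by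
      intro d hd
      rw [mem_filter] at hd
      have h1 := hpf y d hd.1
      have hd0 : d ≠ 0 := (Nat.pos_of_mem_divisors hd.1).ne'
      have h2 : Squarefree d := (prod_primes_squarefree (PS z y) fun p hp => PS_prime hp).squarefree_of_dvd
        (Nat.dvd_of_mem_divisors hd.1)
      rw [Nat.mem_divisors]
      refine ⟨?_, (prod_primes_squarefree (PS z (min y V)) fun p hp => PS_prime hp).ne_zero⟩
      rw [← Nat.prod_primeFactors_of_squarefree h2]
      refine Finset.prod_dvd_prod_of_subset _ _ _ fun p hp => ?_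
      have h3 := h1 hp
      have h4 : p ≤ d := Nat.le_of_mem_primeFactors hp
      exact mem_filter.2 ⟨mem_Ioc.2 ⟨PS_lt h3, le_min (PS_le h3) (h4.trans hd.2)⟩, PS_prime h3⟩
    have h1 : ∑ d ∈ (PP z y).divisors.filter (fun d => d ≤ V), gw w c d * hh d ≤
        ∑ d ∈ (PP z (min y V)).divisors, gw w c d * hh d := by
      refine Finset.sum_le_sum_of_subset_of_nonneg hsub fun d hd _ => hnn d fun p hp => ?_
      exact PS_lt (hpf _ d hd hp)
    have hmin2 : 2 ≤ min y V := le_min (by omega) hV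
    refine h1.trans ((main _ hmin2).trans ?_)
    have h2 : (Real.log (min y V : ℕ)) ^ w ≤ (Real.log V) ^ w := by
      refine Real.rpow_le_rpow (hlog _ hmin2).le ?_ hw.le
      exact Real.log_le_log (by exact_mod_cast (by omega : 0 < min y V))
        (by exact_mod_cast min_le_right y V)
    refine mul_le_mul ?_ h2 (Real.rpow_nonneg (hlog _ hmin2).le _) (Real.exp_pos _).le
    rw [Real.exp_le_exp]
    linarith
  · intro y Y hy hY
    have hy3 : 3 ≤ y := by omega
    have hly := hlog y (by omega)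
    have hly1 : 1 ≤ Real.log y := by
      rw [Real.le_log_iff_exp_le (by positivity)]
      have := Real.exp_one_lt_d9
      have h3 : (3:ℝ) ≤ y := by exact_mod_cast hy3
      linarith
    have hY0 : (0:ℝ) < Y := by exact_mod_cast hY
    set ψ : ℕ → ℝ := fun p => φ p * Real.exp (Real.log p / Real.log y) with hψ
    have hterm : ∀ d ∈ (PP z y).divisors.filter (fun d => Y < d), gw w c d * hh d ≤
        Real.exp (-(Real.log Y / Real.log y)) * ∏ p ∈ d.primeFactors, ψ p := by
      intro d hd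
      rw [mem_filter] at hd
      have h1 := hpf y d hd.1
      have hd0 : 0 < d := Nat.pos_of_mem_divisors hd.1
      have h2 : Squarefree d := (prod_primes_squarefree (PS z y) fun p hp => PS_prime hp).squarefree_of_dvd
        (Nat.dvd_of_mem_divisors hd.1)
      have h3 : ∏ p ∈ d.primeFactors, Real.exp (Real.log p / Real.log y) =
          Real.exp (Real.log d / Real.log y) := by
        rw [← Real.exp_sum, ← Finset.sum_div, ← Real.log_prod]
        · congr 3
          conv_rhs => rw [← Nat.prod_primeFactors_of_squarefree h2]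
          push_cast
          rfl
        · intro p hp
          exact_mod_cast (Nat.prime_of_mem_primeFactors hp).ne_zero
      rw [hψ, Finset.prod_mul_distrib, h3, gw_hh]
      have h4 : 0 ≤ ∏ p ∈ d.primeFactors, φ p :=
        Finset.prod_nonneg fun p hp => hφ0 y p (h1 hp)
      have h5 : 1 ≤ Real.exp (-(Real.log Y / Real.log y)) * Real.exp (Real.log d / Real.log y) := by
        rw [← Real.exp_add]
        apply Real.one_le_exp
        rw [neg_add_eq_sub, ← sub_div]
        refine div_nonneg (sub_nonneg.2 (Real.log_le_log hY0 ?_)) hly.le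
        exact_mod_cast hd.2.le
      calc ∏ p ∈ d.primeFactors, φ p = (∏ p ∈ d.primeFactors, φ p) * 1 := (mul_one _).symm
        _ ≤ (∏ p ∈ d.primeFactors, φ p) * (Real.exp (-(Real.log Y / Real.log y)) *
            Real.exp (Real.log d / Real.log y)) := mul_le_mul_of_nonneg_left h5 h4
        _ = _ := by ring
    have hψ0 : ∀ p ∈ PS z y, 0 ≤ ψ p := fun p hp => mul_nonneg (hφ0 y p hp) (Real.exp_pos _).le
    have hψe : ∀ p ∈ PS z y, ψ p ≤ φ p * Real.exp 1 := by
      intro p hp
      refine mul_le_mul_of_nonneg_left ?_ (hφ0 y p hp)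
      rw [Real.exp_le_exp, div_le_one hly]
      exact Real.log_le_log (by exact_mod_cast (PS_prime hp).pos) (by exact_mod_cast PS_le hp)
    calc ∑ d ∈ (PP z y).divisors.filter (fun d => Y < d), gw w c d * hh d
        ≤ ∑ d ∈ (PP z y).divisors.filter (fun d => Y < d),
            Real.exp (-(Real.log Y / Real.log y)) * ∏ p ∈ d.primeFactors, ψ p :=
          Finset.sum_le_sum hterm
      _ ≤ ∑ d ∈ (PP z y).divisors,
            Real.exp (-(Real.log Y / Real.log y)) * ∏ p ∈ d.primeFactors, ψ p := by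
          refine Finset.sum_le_sum_of_subset_of_nonneg (filter_subset _ _) fun d hd _ => ?_
          exact mul_nonneg (Real.exp_pos _).le (Finset.prod_nonneg fun p hp => hψ0 p (hpf y d hd hp))
      _ = Real.exp (-(Real.log Y / Real.log y)) * ∏ p ∈ PS z y, (1 + ψ p) := by
          rw [← Finset.mul_sum]
          congr 1
          exact sum_mult (PS z y) (fun p hp => PS_prime hp) ψ
      _ ≤ Real.exp (-(Real.log Y / Real.log y)) *
            (Real.exp (3 * (B + 1)) * (Real.log y) ^ 2) := by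
          refine mul_le_mul_of_nonneg_left ?_ (Real.exp_pos _).le
          refine (prod_le_exp _ _ fun p hp => by have := hψ0 p hp; linarith).trans ?_
          have h6 : (Real.log y) ^ 2 = Real.exp (2 * Real.log (Real.log y)) := by
            rw [mul_comm, Real.exp_mul, Real.exp_log hly]
            norm_num
          rw [h6, ← Real.exp_add, Real.exp_le_exp]
          have h7 : ∑ p ∈ PS z y, ψ p ≤ (w * Real.log (Real.log y) + B) * Real.exp 1 := by
            calc ∑ p ∈ PS z y, ψ p ≤ ∑ p ∈ PS z y, φ p * Real.exp 1 := Finset.sum_le_sum hψe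
              _ = (∑ p ∈ PS z y, φ p) * Real.exp 1 := by rw [Finset.sum_mul]
              _ ≤ _ := mul_le_mul_of_nonneg_right (hsum y (by omega)) (Real.exp_pos _).le
          have h8 : 0 ≤ Real.log (Real.log y) := Real.log_nonneg hly1
          have h9 := Real.exp_one_lt_d9
          have h10 : w * Real.exp 1 ≤ 2 := by nlinarith [Real.exp_pos 1]
          have h11 : w * Real.log (Real.log y) * Real.exp 1 ≤ 2 * Real.log (Real.log y) := by
            calc w * Real.log (Real.log y) * Real.exp 1 = (w * Real.exp 1) * Real.log (Real.log y) := by ring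
              _ ≤ _ := mul_le_mul_of_nonneg_right h10 h8
          have h12 : B * Real.exp 1 ≤ 3 * B := by nlinarith
          linarith
      _ = _ := by ring

end Pool.Agent.W655.RK
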